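import Pool.Agent.Helper46.C2.St

set_option autoImplicit false

namespace Pool.Agent.Helper67.C2

open Pool.Agent.Helper46.C2

theorem hC4 (h1 : StLF) : StC4 := by
  intro k L _ x hR I hI
  have hfin : Finite L := h1 k L x hR
  have : I.IsMaximal := hI
  let _ : Field (L ⧸ I) := Ideal.Quotient.field I
  have : Finite (L ⧸ I) := Finite.of_surjective (Ideal.Quotient.mk I) Ideal.Quotient.mk_surjective
  let _ : Fintype (L ⧸ I) := Fintype.ofFinite _
  have h2 : (2 : L ⧸ I) = 0 := by
    have h := congrArg (Ideal.Quotient.mk I) hR.two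
    rw [map_zero, map_ofNat] at h
    exact h
  have : CharP (L ⧸ I) 2 := by
    apply CharTwo.of_one_ne_zero_of_two_eq_zero one_ne_zero h2
  obtain ⟨f, _, hf⟩ := FiniteField.card (L ⧸ I) 2
  refine ⟨f, ?_, ?_⟩
  · by_contra hlt
    have hf1 : (f : ℕ) = 1 := by
      have := f.pos
      omega
    rw [hf1, pow_one] at hf
    set ξ : L ⧸ I := Ideal.Quotient.mk I (x : L) with hξ
    have hne : ξ ≠ 0 := by
      intro h0
      have h3 : ξ * Ideal.Quotient.mk I ((x⁻¹ : Lˣ) : L) = 1 := by
        rw [hξ, ← map_mul, Units.mul_inv, map_one]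
      rw [h0, zero_mul] at h3
      exact zero_ne_one h3
    have h3 : ξ = 1 := by
      have h4 := FiniteField.pow_card_sub_one_eq_one ξ hne
      rw [hf] at h4
      simpa using h4
    have h5 : ξ ^ k = ξ + 1 := by
      have h := congrArg (Ideal.Quotient.mk I) hR.xk
      rw [map_pow, map_add, map_one] at h
      exact h
    rw [h3, one_pow] at h5
    have h6 : (1 : L ⧸ I) = 0 := by
      have h7 : (1 : L ⧸ I) + 1 = 0 := by rw [one_add_one_eq_two, h2]
      rw [h7] at h5
      exact h5
    exact one_ne_zero h6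
  · rw [Nat.card_eq_fintype_card, hf]

end Pool.Agent.Helper67.C2
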